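import Mathlib

namespace Pool.Agent.Results.MP_17dcfb_an.NoMeasure

open Set MeasureTheory

/-- the tridiagonal matrix; vertex `i` here is vertex `i+1` of the problem -/
def F (v w : ℕ) : ℕ := if v = w then v + 2 else if v = w + 1 ∨ w = v + 1 then 1 else 0

/-- an edge is (source, range, label) -/
def Paths : Set (ℕ → ℕ × ℕ × ℕ) :=
  {x | ∀ i, (x i).2.2 < F (x i).2.1 (x i).1 ∧ (x i).2.1 = (x (i + 1)).1}

/-- paths whose first `n+1` edges agree with those of `e` -/
def cyl (e : Paths) (n : ℕ) : Set Paths := {x | ∀ i ≤ n, x.1 i = e.1 i}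

lemma core (p : ℕ → ℕ → ℝ) (hp : ∀ n i, 0 < p n i)
    (h0 : ∀ n, p n 0 = 2 * p (n + 1) 0 + p (n + 1) 1)
    (h1 : ∀ n i, p n (i + 1) = p (n + 1) i + (i + 3) * p (n + 1) (i + 1) + p (n + 1) (i + 2)) :
    False := by
  set a : ℕ → ℝ := fun i => ⨅ n, p n (i + 1) / p n i with ha
  have hb : ∀ i, BddBelow (range fun n => p n (i + 1) / p n i) := fun i =>
    ⟨0, by rintro _ ⟨n, rfl⟩; exact (div_pos (hp _ _) (hp _ _)).le⟩
  have ha0 : ∀ i, 0 ≤ a i := fun i => le_ciInf fun n => (div_pos (hp _ _) (hp _ _)).le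
  have ha1 : ∀ i n, a i * p n i ≤ p n (i + 1) := fun i n =>
    (le_div_iff₀ (hp _ _)).1 (ciInf_le (hb i) n)
  have step : ∀ i (c : ℝ), 0 ≤ c →
      (∀ n, p n i ≤ (c + i + 2) * p (n + 1) i + p (n + 1) (i + 1)) →
      0 < a i ∧ 1 / a i + 1 + a (i + 1) ≤ a i + c := by
    intro i c hc h
    have hi : (0 : ℝ) ≤ i := Nat.cast_nonneg i
    have a1 := ha0 i
    have a2 := ha0 (i + 1)
    set B := i + 3 + a (i + 1)
    set D := c + i + 2
    have hD : 0 < a i + D := by positivity
    have key : min B ((B * a i + 1) / (a i + D)) ≤ a i := by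
      refine le_ciInf fun n => ?_
      set m := min B ((B * a i + 1) / (a i + D))
      have m0 : 0 ≤ m := le_min (by positivity) (by positivity)
      have m1 : m ≤ B := min_le_left _ _
      have m2 : m * (a i + D) ≤ B * a i + 1 := (le_div_iff₀ hD).1 (min_le_right _ _)
      rw [le_div_iff₀ (hp _ _), h1]
      have e1 := mul_le_mul_of_nonneg_left (h n) m0
      have e2 := ha1 (i + 1) (n + 1)
      have e3 := mul_le_mul_of_nonneg_left (ha1 i (n + 1)) (sub_nonneg.2 m1)
      have e4 := mul_le_mul_of_nonneg_right m2 (hp (n + 1) i).le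
      simp only [B] at *
      nlinarith
    rcases min_le_iff.1 key with k | k
    · have : 1 ≤ a i := by simp only [B] at k; linarith
      have h2 : 1 / a i ≤ 1 := (div_le_one (by linarith)).2 this
      exact ⟨by linarith, by simp only [B] at k; linarith⟩
    · rw [div_le_iff₀ hD] at k
      have h3 : 0 < a i := a1.lt_of_ne fun h => by rw [← h] at k; linarith
      refine ⟨h3, ?_⟩
      have : 1 / a i ≤ a i + c - 1 - a (i + 1) := by
        rw [div_le_iff₀ h3]; simp only [B, D] at k; nlinarith
      linarith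
  have main : ∀ i : ℕ, 0 < a i ∧ 1 / a i + (i + 1) + a (i + 1) ≤ a 0 := by
    intro i
    induction i with
    | zero => simpa using step 0 0 le_rfl fun n => by rw [h0]; simp
    | succ i ih =>
      have := step (i + 1) (1 / a i) (by have := ih.1; positivity) fun n => by
        have e := ha1 i (n + 1)
        have : p (n + 1) i ≤ 1 / a i * p (n + 1) (i + 1) := by
          rw [one_div, ← div_eq_inv_mul, le_div_iff₀ ih.1]; linarith
        rw [h1]; push_cast; linarith
      exact ⟨this.1, by push_cast; linarith [this.2, ih.2]⟩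
  obtain ⟨i, hi⟩ := exists_nat_gt (a 0)
  have := main i
  have h2 := ha0 (i + 1)
  have h3 := one_div_pos.2 this.1
  linarith [this.2]

def stay (v : ℕ) : Paths := ⟨fun _ => (v, v, 0), fun _ => by simp [F]⟩

def ext1 (w n v l : ℕ) (h : l < F v w) : Paths :=
  ⟨fun i => if i ≤ n then (w, w, 0) else if i = n + 1 then (w, v, l) else (v, v, 0), fun i => by
    rcases lt_trichotomy i n with h1 | rfl | h1
    · simp [h1.le, Nat.succ_le_of_lt h1, F]
    · simp [F]
    · have h2 : ¬ i ≤ n := by omega
      have h3 : ¬ i + 1 ≤ n := by omega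
      have h4 : i ≠ n := by omega
      by_cases h5 : i = n + 1 <;> simp [h2, h3, h4, h5, h]
      simp [F]⟩

lemma meas (e : Paths) (n : ℕ) : MeasurableSet (cyl e n) := by
  have : cyl e n = ⋂ i, ⋂ (_ : i ≤ n), (fun x : Paths => x.1 i) ⁻¹' {e.1 i} := by
    ext x; simp [cyl]
  rw [this]
  exact MeasurableSet.iInter fun i => MeasurableSet.iInter fun _ =>
    ((measurable_pi_apply i).comp measurable_subtype_coe) (measurableSet_singleton _)

theorem result : ¬ ∃ μ : Measure Paths, (∀ e n, 0 < μ (cyl e n) ∧ μ (cyl e n) < ⊤) ∧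
    ∀ (e e' : Paths) (n : ℕ), (e.1 n).2.1 = (e'.1 n).2.1 → μ (cyl e n) = μ (cyl e' n) := by
  rintro ⟨μ, hpos, hinv⟩
  have hrec : ∀ n w, μ (cyl (stay w) n) =
      ∑ v ∈ Finset.range (w + 2), F v w * μ (cyl (stay v) (n + 1)) := by
    intro n w
    have hm : Measurable fun x : Paths => (x.1 (n + 1)).2 :=
      measurable_snd.comp ((measurable_pi_apply _).comp measurable_subtype_coe)
    have e : cyl (stay w) n = ⋃ q ∈ (Finset.range (w + 2)).sigma fun v => Finset.range (F v w),
        cyl (stay w) n ∩ (fun x : Paths => (x.1 (n + 1)).2) ⁻¹' {(q.1, q.2)} := by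
      refine Subset.antisymm (fun x hx => ?_) (iUnion₂_subset fun _ _ => inter_subset_left)
      have h1 := (x.2 (n + 1)).1
      have h2 := (x.2 n).2
      rw [hx n le_rfl] at h2
      have h3 : (x.1 (n + 1)).1 = w := h2.symm
      rw [h3] at h1
      refine mem_iUnion₂.2 ⟨⟨(x.1 (n + 1)).2.1, (x.1 (n + 1)).2.2⟩, ?_, hx, rfl⟩
      simp only [Finset.mem_sigma, Finset.mem_range, h1, and_true]
      unfold F at h1
      split_ifs at h1 <;> omega
    rw [e, measure_biUnion_finset, Finset.sum_sigma]
    · refine Finset.sum_congr rfl fun v _ => ?_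
      rw [Finset.sum_congr rfl (g := fun _ => μ (cyl (stay v) (n + 1)))]
      · simp
      intro l hl
      rw [← hinv (ext1 w n v l (Finset.mem_range.1 hl)) _ _ (by simp [ext1, stay])]
      congr 1
      ext x
      constructor
      · rintro ⟨h1, h2⟩ i hi
        rcases Nat.lt_or_ge n i with h | h
        · have h3 := (x.2 n).2
          rw [h1 n le_rfl] at h3
          obtain rfl : i = n + 1 := by omega
          simp only [ext1, add_le_iff_nonpos_right, nonpos_iff_eq_zero, one_ne_zero, if_false,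
            if_true]
          exact Prod.ext h3.symm h2
        · rw [h1 i h]; simp [ext1, stay, h]
      · intro h
        refine ⟨fun i hi => ?_, ?_⟩
        · rw [h i (by omega)]; simp [ext1, stay, hi]
        · show (x.1 (n + 1)).2 = _
          rw [h _ le_rfl]; simp [ext1]
    · intro q _ r _ hqr
      refine Set.disjoint_left.2 fun x h1 h2 => hqr ?_
      have := h1.2.symm.trans h2.2
      obtain ⟨a, b⟩ := q
      obtain ⟨c, d⟩ := r
      simp only [Prod.mk.injEq] at this
      rw [this.1, this.2]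
    · exact fun q _ => (meas _ _).inter (hm (measurableSet_singleton _))
  have hrec' : ∀ n w, (μ (cyl (stay w) n)).toReal =
      ∑ v ∈ Finset.range (w + 2), F v w * (μ (cyl (stay v) (n + 1))).toReal := fun n w => by
    rw [hrec, ENNReal.toReal_sum fun v _ => ENNReal.mul_ne_top (by simp) (hpos _ _).2.ne]
    simp
  refine core (fun n v => (μ (cyl (stay v) n)).toReal)
    (fun n v => ENNReal.toReal_pos (hpos _ _).1.ne' (hpos _ _).2.ne) (fun n => ?_) fun n i => ?_
  · rw [hrec']; simp [Finset.sum_range_succ, F]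
  · rw [hrec', Finset.sum_range_succ, Finset.sum_range_succ, Finset.sum_range_succ,
      Finset.sum_eq_zero]
    · simp [F]; exact Or.inl (by ring)
    · intro v hv
      have := Finset.mem_range.1 hv
      rw [F, if_neg (by omega), if_neg (by omega)]; simp

end Pool.Agent.Results.MP_17dcfb_an.NoMeasure
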